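import Pool.Agent.J4H4.NG.Stm

/-!
# Project NG, piece (E): the dyadic assembly (helper6)
-/

set_option autoImplicit false

namespace Pool.Agent.J4H6.NG

open Complex Filter Topology Set
open Pool.Agent.J4H4.NG
open Pool.Agent.J4H2.DN (Hd)

theorem ord_lin {g : ℂ → ℂ} (hg : Differentiable ℂ g) {c a : ℂ} (hc : c ≠ 0) (ha : a ≠ 0) (z : ℂ) :
    analyticOrderNatAt (fun z => c * g (a * z)) z = analyticOrderNatAt g (a * z) := by
  have h1 : analyticOrderAt (g ∘ fun z => a * z) z = analyticOrderAt g (a * z) := by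
    refine analyticOrderAt_comp_of_deriv_ne_zero (f := g) (g := fun z : ℂ => a * z) (z₀ := z) (by fun_prop) ?_
    simpa using ha
  have h2 : analyticOrderAt (fun _ : ℂ => c) z = 0 :=
    (analyticAt_const (𝕜 := ℂ) (v := c) (x := z)).analyticOrderAt_eq_zero.2 hc
  have hd : Differentiable ℂ (g ∘ fun z => a * z) := hg.comp (differentiable_id.const_mul a)
  have h3 := analyticOrderAt_mul (f := fun _ : ℂ => c) (g := g ∘ fun z => a * z) (z₀ := z) analyticAt_const (hd.analyticAt z)
  have h4 : (fun z => c * g (a * z)) = (fun _ : ℂ => c) * (g ∘ fun z => a * z) := rfl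
  unfold analyticOrderNatAt
  rw [h4, h3, h2, zero_add, h1]

theorem fin_zeros {f : ℂ → ℂ} (hf : Differentiable ℂ f) (hne : ∃ z, f z ≠ 0) (R : ℝ) : {z | f z = 0 ∧ ‖z‖ ≤ R}.Finite := by
  have han : AnalyticOnNhd ℂ f Set.univ := fun z _ => hf.analyticAt z
  by_contra hinf
  have hinf : {z | f z = 0 ∧ ‖z‖ ≤ R}.Infinite := hinf
  obtain ⟨x, -, hx⟩ := hinf.exists_accPt_of_subset_isCompact (isCompact_closedBall (0 : ℂ) R)
    (fun z hz => by simpa using hz.2)
  rw [accPt_iff_frequently_nhdsNE] at hx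
  have h := han.eqOn_zero_of_preconnected_of_frequently_eq_zero isPreconnected_univ (mem_univ x)
    (hx.mono fun z hz => hz.1)
  obtain ⟨z, hz⟩ := hne
  exact hz (h (mem_univ z))

/-- the sum over the blocks -/
theorem blocks (Z : ℂ → Prop) (m : ℂ → ℝ) (D R L : ℝ) (hR : 4 ≤ R)
    (h : ∀ T : ℝ, √R ≤ T → 4 * T ≤ R → ∀ S : Finset ℂ, (∀ z ∈ S, Z z ∧ |z.im| ≤ L ∧ 2 * T < z.re ∧ z.re ≤ 4 * T) →
      ∑ z ∈ S, m z ≤ 2 * D * T) :
    ∀ k : ℕ, √R * 2 ^ (k + 1) ≤ R → ∀ S : Finset ℂ, (∀ z ∈ S, Z z ∧ |z.im| ≤ L ∧ R / 2 ^ k < z.re ∧ z.re ≤ R) →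
      ∑ z ∈ S, m z ≤ D * R * (1 - 1 / 2 ^ k) := by
  intro k
  induction k with
  | zero =>
    intro _ S hS
    have : S = ∅ := by
      refine Finset.eq_empty_of_forall_notMem fun z hz => ?_
      have := hS z hz
      rw [pow_zero, div_one] at this
      linarith [this.2.2.1, this.2.2.2]
    rw [this]
    simp
  | succ k ih =>
    intro hk S hS
    have hR0 : 0 < R := by linarith
    have hp : (0 : ℝ) < 2 ^ k := by positivity
    have hsq : 0 ≤ √R := Real.sqrt_nonneg R
    have e1 : (2 : ℝ) ^ (k + 1) = 2 * 2 ^ k := by ring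
    have e2 : (2 : ℝ) ^ (k + 1 + 1) = 4 * 2 ^ k := by ring
    rw [e2] at hk
    have hk' : √R * 2 ^ (k + 1) ≤ R := by
      rw [e1]
      have : 0 ≤ √R * 2 ^ k := by positivity
      linarith
    rw [← Finset.sum_filter_add_sum_filter_not S (fun z => z.re ≤ R / 2 ^ k)]
    have a1 := h (R / 4 / 2 ^ k) (by rw [le_div_iff₀ hp]; linarith)
      (by
        have : R / 4 / 2 ^ k ≤ R / 4 := div_le_self (by positivity) (one_le_pow₀ (by norm_num))
        linarith)
      (S.filter fun z => z.re ≤ R / 2 ^ k) (fun z hz => by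
        obtain ⟨z1, z2⟩ := Finset.mem_filter.1 hz
        obtain ⟨b1, b2, b3, b4⟩ := hS z z1
        refine ⟨b1, b2, ?_, ?_⟩
        · rw [e1] at b3
          calc 2 * (R / 4 / 2 ^ k) = R / (2 * 2 ^ k) := by field_simp; ring
            _ < _ := b3
        · calc z.re ≤ R / 2 ^ k := z2
            _ = _ := by field_simp)
    have a2 := ih hk' (S.filter fun z => ¬ z.re ≤ R / 2 ^ k) (fun z hz => by
        obtain ⟨z1, z2⟩ := Finset.mem_filter.1 hz
        obtain ⟨b1, b2, b3, b4⟩ := hS z z1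
        exact ⟨b1, b2, not_le.1 z2, b4⟩)
    refine (add_le_add a1 a2).trans (le_of_eq ?_)
    rw [e1]
    field_simp
    ring

theorem t_E : S_E := by
  intro hREP hNEAR hUPT hTOT
  obtain ⟨c, hc, hTOT⟩ := hTOT
  refine ⟨max 4 (201 / c), by positivity, fun b δ hb hδ => ?_⟩
  obtain ⟨hf, hg, he, -⟩ := hREP b hb
  obtain ⟨R1, hR1, hU⟩ := hUPT b hb
  obtain ⟨R2, hR2, hT⟩ := hTOT b hb
  set f : ℂ → ℂ := Hd (-b) with hfdef
  set g : ℂ → ℂ := EE (b / 4) with hgdef
  have hfe : f = fun z => (1 / 8 : ℂ) * g (I / 2 * z) := by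
    funext z
    rw [hf z]
    congr 2
    ring
  have hfd : Differentiable ℂ f := by
    rw [hfe]
    exact (hg.comp (differentiable_id.const_mul _)).const_mul _
  have hof : ∀ z, analyticOrderNatAt f z = analyticOrderNatAt g (I / 2 * z) := by
    intro z
    rw [hfe]
    exact ord_lin hg (by norm_num) (by simp) z
  have hzf : ∀ z, f z = 0 → g (I / 2 * z) = 0 := by
    intro z hz
    rw [hfe] at hz
    simpa using hz
  have hev : ∀ z, f (-z) = f z := by
    intro z
    rw [hfe]
    simp only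
    rw [mul_neg, he]
  have hoe : ∀ z, analyticOrderNatAt f (-z) = analyticOrderNatAt f z := by
    intro z
    have h := ord_lin hfd (one_ne_zero) (neg_ne_zero.2 one_ne_zero : (-1 : ℂ) ≠ 0) z
    have e : (fun z => (1 : ℂ) * f (-1 * z)) = f := by
      funext w
      rw [one_mul, neg_one_mul, hev]
    rw [e, neg_one_mul] at h
    exact h.symm
  have hne : ∃ z, f z ≠ 0 := by
    by_contra hcon
    push Not at hcon
    have hR2' : 0 < c * (R2 + 1) * Real.log (R2 + 1) := by
      have := Real.log_pos (show 1 < R2 + 1 by linarith)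
      have : 0 < R2 + 1 := by linarith
      positivity
    obtain ⟨S, hS, hS2⟩ := hT (R2 + 1) (by linarith)
    have : ∑ z ∈ S, (analyticOrderNatAt f z : ℝ) = 0 := by
      refine Finset.sum_eq_zero fun z _ => ?_
      have : analyticOrderAt f z = ⊤ := by
        rw [analyticOrderAt_eq_top]
        exact Eventually.of_forall hcon
      simp [analyticOrderNatAt, this]
    linarith
  have hfin := fin_zeros hfd hne
  rcases le_total (b / 4) δ with hbd | hbd
  · -- trivial case
    refine ⟨2, le_rfl, fun R _ => ⟨hfin R, ?_⟩⟩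
    have h1 : ({z : ℂ | (f z = 0 ∧ ‖z‖ ≤ R) ∧ |z.im| ≤ δ * Real.log R}).Finite := (hfin R).subset fun z hz => hz.1
    rw [finsum_mem_eq_finite_toFinset_sum _ h1, finsum_mem_eq_finite_toFinset_sum _ (hfin R)]
    have h2 : ∑ z ∈ h1.toFinset, (analyticOrderNatAt f z : ℝ) ≤ ∑ z ∈ (hfin R).toFinset, (analyticOrderNatAt f z : ℝ) := by
      refine Finset.sum_le_sum_of_subset_of_nonneg ?_ (fun _ _ _ => by positivity)
      intro z hz
      rw [Set.Finite.mem_toFinset] at hz ⊢
      exact hz.1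
    have h3 : 1 ≤ max 4 (201 / c) * δ / b := by
      rw [le_div_iff₀ hb]
      have : 4 * δ ≤ max 4 (201 / c) * δ := mul_le_mul_of_nonneg_right (le_max_left _ _) hδ.le
      linarith
    have h4 : 0 ≤ ∑ z ∈ (hfin R).toFinset, (analyticOrderNatAt f z : ℝ) := by positivity
    nlinarith
  -- the main case
  obtain ⟨T0, hT0, hN⟩ := hNEAR (b / 4) δ (by positivity) hδ hbd
  have hblock : ∀ T : ℝ, T0 ≤ T → ∀ S : Finset ℂ,
      (∀ z ∈ S, f z = 0 ∧ |z.im| ≤ 2 * (δ * Real.log T) ∧ 2 * T < z.re ∧ z.re ≤ 4 * T) →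
      ∑ z ∈ S, (analyticOrderNatAt f z : ℝ) ≤ 200 * (δ / b) * T * Real.log T := by
    intro T hT S hS
    have hinj : Function.Injective fun z : ℂ => I / 2 * z := fun x y hxy => by
      have : (I / 2 : ℂ) ≠ 0 := by simp
      exact mul_left_cancel₀ this hxy
    have h1 := hN T hT (S.image fun z => I / 2 * z) (fun w hw => by
      obtain ⟨z, hz, rfl⟩ := Finset.mem_image.1 hw
      obtain ⟨a1, a2, a3, a4⟩ := hS z hz
      have e1 : (I / 2 * z).re = -(z.im / 2) := by
        simp [Complex.mul_re]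
        ring
      have e2 : (I / 2 * z).im = z.re / 2 := by
        simp [Complex.mul_im]
        ring
      refine ⟨hzf z a1, ?_, ?_, ?_⟩
      · rw [e1, abs_neg, abs_div, abs_two]
        linarith
      · rw [e2]; linarith
      · rw [e2]; linarith)
    rw [Finset.sum_image (fun x _ y _ hxy => hinj hxy)] at h1
    have h2 : ∑ z ∈ S, (analyticOrderNatAt f z : ℝ) = ∑ z ∈ S, (analyticOrderNatAt (EE (b / 4)) (I / 2 * z) : ℝ) :=
      Finset.sum_congr rfl fun z _ => by rw [hof]
    rw [h2]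
    refine h1.trans (le_of_eq ?_)
    field_simp
    ring
  have hlogn : ∀ᶠ R : ℝ in atTop, δ * Real.log R ≤ √R := by
    have h := isLittleO_log_rpow_atTop (show (0 : ℝ) < 1 / 2 by norm_num)
    have h2 := h.bound (show (0 : ℝ) < 1 / δ by positivity)
    filter_upwards [h2, eventually_ge_atTop 1] with R hR hR1
    rw [Real.norm_of_nonneg (Real.log_nonneg hR1), Real.norm_of_nonneg (by positivity), ← Real.sqrt_eq_rpow] at hR
    calc δ * Real.log R ≤ δ * (1 / δ * √R) := mul_le_mul_of_nonneg_left hR hδ.le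
      _ = √R := by field_simp
  obtain ⟨R3, hR3⟩ := eventually_atTop.1 hlogn
  refine ⟨max (max (max R1 R2) (max R3 25)) (max (max (T0 ^ 2) (R1 ^ 2)) ((20 * b / δ) ^ 2)),
    le_max_of_le_left (le_max_of_le_right (le_max_of_le_right (by norm_num))), fun R hR => ⟨hfin R, ?_⟩⟩
  have c1 : R1 ≤ R := ((le_max_left _ _).trans ((le_max_left _ _).trans (le_max_left _ _))).trans hR
  have c2 : R2 ≤ R := ((le_max_right _ _).trans ((le_max_left _ _).trans (le_max_left _ _))).trans hR
  have c3 : R3 ≤ R := ((le_max_left _ _).trans ((le_max_right _ _).trans (le_max_left _ _))).trans hR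
  have c4 : 25 ≤ R := ((le_max_right _ _).trans ((le_max_right _ _).trans (le_max_left _ _))).trans hR
  have c5 : T0 ^ 2 ≤ R := ((le_max_left _ _).trans ((le_max_left _ _).trans (le_max_right _ _))).trans hR
  have c6 : R1 ^ 2 ≤ R := ((le_max_right _ _).trans ((le_max_left _ _).trans (le_max_right _ _))).trans hR
  have c7 : (20 * b / δ) ^ 2 ≤ R := ((le_max_right _ _).trans (le_max_right _ _)).trans hR
  have hR0 : 0 < R := by linarith
  have s5 : 5 ≤ √R := Real.le_sqrt_of_sq_le (by linarith)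
  have sT : T0 ≤ √R := Real.le_sqrt_of_sq_le c5
  have s1 : R1 ≤ √R := Real.le_sqrt_of_sq_le c6
  have s7 : 20 * b / δ ≤ √R := Real.le_sqrt_of_sq_le c7
  have sq : √R * √R = R := Real.mul_self_sqrt hR0.le
  have hL : 0 < Real.log R := Real.log_pos (by linarith)
  have hlog : δ * Real.log R ≤ √R := hR3 R c3
  -- blocks to the right
  have hB := blocks (fun z => f z = 0) (fun z => (analyticOrderNatAt f z : ℝ)) (100 * (δ / b) * Real.log R) R (δ * Real.log R)
    (by linarith) (fun T hT1 hT2 S hS => by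
      have hT0' : 0 < T := by linarith
      have hlT : Real.log R ≤ 2 * Real.log T := by
        have h1 : Real.log √R ≤ Real.log T := Real.log_le_log (by positivity) hT1
        rw [Real.log_sqrt hR0.le] at h1
        linarith
      have hlT2 : Real.log T ≤ Real.log R := Real.log_le_log hT0' (by linarith)
      have h1 := hblock T (sT.trans hT1) S (fun z hz => by
        obtain ⟨a1, a2, a3, a4⟩ := hS z hz
        refine ⟨a1, a2.trans ?_, a3, a4⟩
        have := mul_le_mul_of_nonneg_left hlT hδ.le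
        linarith)
      refine h1.trans ?_
      have h2 : 200 * (δ / b) * T * Real.log T ≤ 200 * (δ / b) * T * Real.log R :=
        mul_le_mul_of_nonneg_left hlT2 (by positivity)
      linarith)
  obtain ⟨k, hk1, hk2⟩ := exists_nat_pow_near (show (1 : ℝ) ≤ √R / 2 by linarith) (one_lt_two : (1 : ℝ) < 2)
  have hkR : √R * 2 ^ (k + 1) ≤ R := by
    have : (2 : ℝ) ^ (k + 1) ≤ √R := by
      rw [pow_succ]
      linarith
    calc √R * 2 ^ (k + 1) ≤ √R * √R := mul_le_mul_of_nonneg_left this (Real.sqrt_nonneg _)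
      _ = R := sq
  have hkR2 : R / 2 ^ k < 4 * √R := by
    rw [div_lt_iff₀ (by positivity)]
    have : √R < 4 * 2 ^ k := by
      rw [pow_succ] at hk2
      linarith
    calc R = √R * √R := sq.symm
      _ < √R * (4 * 2 ^ k) := mul_lt_mul_of_pos_left this (by linarith)
      _ = _ := by ring
  have hright : ∀ S : Finset ℂ, (∀ z ∈ S, f z = 0 ∧ |z.im| ≤ δ * Real.log R ∧ R / 2 ^ k < z.re ∧ z.re ≤ R) →
      ∑ z ∈ S, (analyticOrderNatAt f z : ℝ) ≤ 100 * (δ / b) * Real.log R * R := by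
    intro S hS
    refine (hB k hkR S hS).trans ?_
    have h0 : (0 : ℝ) ≤ 1 / 2 ^ k := by positivity
    have h1 : 0 ≤ 100 * (δ / b) * Real.log R * R := by positivity
    nlinarith
  have hleft : ∀ S : Finset ℂ, (∀ z ∈ S, f z = 0 ∧ |z.im| ≤ δ * Real.log R ∧ R / 2 ^ k < -z.re ∧ -z.re ≤ R) →
      ∑ z ∈ S, (analyticOrderNatAt f z : ℝ) ≤ 100 * (δ / b) * Real.log R * R := by
    intro S hS
    have h := hright (S.image fun z => -z) (fun w hw => by
      obtain ⟨z, hz, rfl⟩ := Finset.mem_image.1 hw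
      obtain ⟨a1, a2, a3, a4⟩ := hS z hz
      refine ⟨by rw [hev, a1], by simpa using a2, by simpa using a3, by simpa using a4⟩)
    rw [Finset.sum_image (fun x _ y _ hxy => neg_injective hxy)] at h
    simpa only [hoe] using h
  have h1 : ({z : ℂ | (f z = 0 ∧ ‖z‖ ≤ R) ∧ |z.im| ≤ δ * Real.log R}).Finite := (hfin R).subset fun z hz => hz.1
  rw [finsum_mem_eq_finite_toFinset_sum _ h1, finsum_mem_eq_finite_toFinset_sum _ (hfin R)]
  -- total
  obtain ⟨S0, hS0, hS1⟩ := hT R c2
  have htot : c * R * Real.log R ≤ ∑ z ∈ (hfin R).toFinset, (analyticOrderNatAt f z : ℝ) := by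
    refine hS1.trans (Finset.sum_le_sum_of_subset_of_nonneg ?_ (fun _ _ _ => by positivity))
    intro z hz
    rw [Set.Finite.mem_toFinset]
    exact hS0 z hz
  set S := h1.toFinset with hSdef
  have hS : ∀ z ∈ S, f z = 0 ∧ ‖z‖ ≤ R ∧ |z.im| ≤ δ * Real.log R := fun z hz => by
    rw [hSdef, Set.Finite.mem_toFinset] at hz
    exact ⟨hz.1.1, hz.1.2, hz.2⟩
  have hnear : ∑ z ∈ S, (analyticOrderNatAt f z : ℝ) ≤ 201 * (δ / b) * (R * Real.log R) := by
    rw [← Finset.sum_filter_add_sum_filter_not S (fun z => R / 2 ^ k < z.re)]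
    rw [← Finset.sum_filter_add_sum_filter_not (S.filter fun z => ¬ R / 2 ^ k < z.re) (fun z => R / 2 ^ k < -z.re)]
    have a1 := hright (S.filter fun z => R / 2 ^ k < z.re) (fun z hz => by
      obtain ⟨z1, z2⟩ := Finset.mem_filter.1 hz
      obtain ⟨b1, b2, b3⟩ := hS z z1
      exact ⟨b1, b3, z2, (Complex.re_le_norm z).trans b2⟩)
    have a2 := hleft ((S.filter fun z => ¬ R / 2 ^ k < z.re).filter fun z => R / 2 ^ k < -z.re) (fun z hz => by
      obtain ⟨z1, z2⟩ := Finset.mem_filter.1 hz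
      obtain ⟨z3, z4⟩ := Finset.mem_filter.1 z1
      obtain ⟨b1, b2, b3⟩ := hS z z3
      exact ⟨b1, b3, z2, ((neg_le_abs z.re).trans (Complex.abs_re_le_norm z)).trans b2⟩)
    have a3 := hU (5 * √R) (by linarith) ((S.filter fun z => ¬ R / 2 ^ k < z.re).filter fun z => ¬ R / 2 ^ k < -z.re)
      (fun z hz => by
        obtain ⟨z1, z2⟩ := Finset.mem_filter.1 hz
        obtain ⟨z3, z4⟩ := Finset.mem_filter.1 z1
        obtain ⟨b1, b2, b3⟩ := hS z z3
        refine ⟨b1, (Complex.norm_le_abs_re_add_abs_im z).trans ?_⟩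
        have : |z.re| ≤ R / 2 ^ k := abs_le.2 ⟨by linarith [not_lt.1 z2], not_lt.1 z4⟩
        linarith)
    have a4 : 4 * (5 * √R) * Real.log (5 * √R) ≤ (δ / b) * (R * Real.log R) := by
      have l1 : Real.log (5 * √R) ≤ Real.log R := Real.log_le_log (by positivity) (by nlinarith)
      have l2 : 20 * √R ≤ (δ / b) * R := by
        have : 20 * b ≤ √R * δ := by rwa [div_le_iff₀ hδ] at s7
        rw [div_mul_eq_mul_div, le_div_iff₀ hb]
        calc 20 * √R * b = (20 * b) * √R := by ring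
          _ ≤ (√R * δ) * √R := mul_le_mul_of_nonneg_right this (Real.sqrt_nonneg _)
          _ = δ * (√R * √R) := by ring
          _ = _ := by rw [sq]
      calc 4 * (5 * √R) * Real.log (5 * √R) ≤ 4 * (5 * √R) * Real.log R := mul_le_mul_of_nonneg_left l1 (by positivity)
        _ = (20 * √R) * Real.log R := by ring
        _ ≤ ((δ / b) * R) * Real.log R := mul_le_mul_of_nonneg_right l2 hL.le
        _ = _ := by ring
    calc _ ≤ 100 * (δ / b) * Real.log R * R + (100 * (δ / b) * Real.log R * R + (δ / b) * (R * Real.log R)) :=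
          add_le_add a1 (add_le_add a2 (a3.trans a4))
      _ = _ := by ring
  have hX : 0 ≤ R * Real.log R := by positivity
  calc ∑ z ∈ S, (analyticOrderNatAt f z : ℝ) ≤ 201 * (δ / b) * (R * Real.log R) := hnear
    _ = (201 / c * δ / b) * (c * R * Real.log R) := by field_simp
    _ ≤ (max 4 (201 / c) * δ / b) * (c * R * Real.log R) := by
        refine mul_le_mul_of_nonneg_right ?_ (by positivity)
        rw [div_le_div_iff_of_pos_right hb]
        exact mul_le_mul_of_nonneg_right (le_max_right _ _) hδ.le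
    _ ≤ _ := mul_le_mul_of_nonneg_left htot (by positivity)

end Pool.Agent.J4H6.NG
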