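import Pool.Agent.J4H4.NG.Stm

/-!
# Project NG, piece (N): the zeros near the axis, from the good points (helper6)
-/

set_option autoImplicit false
set_option maxHeartbeats 4000000

namespace Pool.Agent.J4H6.NG.N

open Complex Filter Topology Set MeasureTheory
open Pool.Agent.J4H4.NG

theorem lower {E G D : ℂ} {e C v T μ : ℝ} (he : 1 ≤ e) (hC : 0 < C) (hT : 0 < T) (hv : T ≤ v)
    (h : ‖E - G * (e : ℂ) * D‖ ≤ C / v * e * ‖G‖) (hD : T ^ (μ - 1) ≤ ‖D‖) (hμ : C + 1 ≤ T ^ μ) : T⁻¹ * ‖G‖ ≤ ‖E‖ := by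
  have h1 : ‖G * (e : ℂ) * D‖ = ‖G‖ * e * ‖D‖ := by
    rw [norm_mul, norm_mul, Complex.norm_real, Real.norm_of_nonneg (by linarith)]
  have h2 : ‖G * (e : ℂ) * D‖ ≤ ‖E‖ + ‖E - G * (e : ℂ) * D‖ := by
    have := norm_sub_norm_le (G * (e : ℂ) * D) E
    rw [norm_sub_rev] at this
    linarith
  have h3 : C / v ≤ C / T := div_le_div_of_nonneg_left hC.le hT hv
  have h4 : T ^ (μ - 1) = T ^ μ * T⁻¹ := by
    rw [Real.rpow_sub hT, Real.rpow_one, div_eq_mul_inv]
  have hG : 0 ≤ ‖G‖ := norm_nonneg _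
  have hTi : 0 < T⁻¹ := inv_pos.2 hT
  have h5 : ‖G‖ * e * (T ^ μ * T⁻¹) ≤ ‖G‖ * e * ‖D‖ := by
    rw [← h4]
    exact mul_le_mul_of_nonneg_left hD (mul_nonneg hG (by linarith))
  have h6 : C / v * e * ‖G‖ ≤ C / T * e * ‖G‖ :=
    mul_le_mul_of_nonneg_right (mul_le_mul_of_nonneg_right h3 (by linarith)) hG
  have h7 : ‖G‖ * e * ((C + 1) * T⁻¹) ≤ ‖G‖ * e * (T ^ μ * T⁻¹) :=
    mul_le_mul_of_nonneg_left (mul_le_mul_of_nonneg_right hμ hTi.le) (mul_nonneg hG (by linarith))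
  have h8 : C / T * e * ‖G‖ = ‖G‖ * e * (C * T⁻¹) := by
    rw [div_eq_mul_inv]
    ring
  have h9 : T⁻¹ * ‖G‖ ≤ ‖G‖ * e * T⁻¹ := by
    have : ‖G‖ * T⁻¹ * 1 ≤ ‖G‖ * T⁻¹ * e := mul_le_mul_of_nonneg_left he (mul_nonneg hG hTi.le)
    calc T⁻¹ * ‖G‖ = ‖G‖ * T⁻¹ * 1 := by ring
      _ ≤ ‖G‖ * T⁻¹ * e := this
      _ = _ := by ring
  calc T⁻¹ * ‖G‖ ≤ ‖G‖ * e * T⁻¹ := h9
    _ = ‖G‖ * e * ((C + 1) * T⁻¹) - ‖G‖ * e * (C * T⁻¹) := by ring
    _ ≤ ‖E‖ := by linarith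

/-- the number of full boxes in a set of small measure -/
theorem count (B : Set ℝ) (T h D : ℝ) (hh : 0 < h) (hD : 0 ≤ D) (hB : volume B ≤ ENNReal.ofReal D) (J : Finset ℕ)
    (hJ : ∀ j ∈ J, Ico (T + j * h) (T + (j + 1) * h) ⊆ B) : (J.card : ℝ) * h ≤ D := by
  have h1 : volume (⋃ j ∈ J, Ico (T + (j : ℝ) * h) (T + (j + 1) * h)) =
      ∑ j ∈ J, volume (Ico (T + (j : ℝ) * h) (T + (j + 1) * h)) := by
    refine measure_biUnion_finset ?_ (fun _ _ => measurableSet_Ico)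
    intro i _ j _ hij
    rw [Function.onFun, Set.disjoint_left]
    rintro x ⟨a1, a2⟩ ⟨b1, b2⟩
    rcases lt_or_gt_of_ne hij with hlt | hlt
    · have : (i : ℝ) + 1 ≤ j := by exact_mod_cast hlt
      nlinarith
    · have : (j : ℝ) + 1 ≤ i := by exact_mod_cast hlt
      nlinarith
  have h2 : ∀ j ∈ J, volume (Ico (T + (j : ℝ) * h) (T + (j + 1) * h)) = ENNReal.ofReal h := by
    intro j _
    rw [Real.volume_Ico]
    congr 1
    ring
  rw [Finset.sum_congr rfl h2, Finset.sum_const, nsmul_eq_mul] at h1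
  have h3 : volume (⋃ j ∈ J, Ico (T + (j : ℝ) * h) (T + (j + 1) * h)) ≤ ENNReal.ofReal D :=
    (measure_mono (iUnion₂_subset hJ)).trans hB
  rw [h1, ← ENNReal.ofReal_natCast, ← ENNReal.ofReal_mul (by positivity)] at h3
  exact (ENNReal.ofReal_le_ofReal_iff hD).1 h3

theorem large (a κ C μ : ℝ) (P : ℕ) (T₁ : ℝ) (ha : 0 < a) (hκ : 0 < κ) (hμ : 0 < μ) : ∀ᶠ T : ℝ in atTop,
    T₁ ≤ T ∧ C + 1 ≤ T ^ μ ∧ a * Real.log (2 * Real.pi) ≤ κ / 2 * Real.log T ∧ 2 * a * Real.log P ≤ κ / 2 * Real.log T ∧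
    2 ≤ Real.log T ∧ κ * Real.log T ≤ T ∧ (40 * a + 20 * (κ ^ 2 / a)) * Real.log T ≤ 20 * (κ / a) * T := by
  have e1 := eventually_ge_atTop T₁
  have e2 := (tendsto_rpow_atTop hμ).eventually_ge_atTop (C + 1)
  have hl : Tendsto (fun T : ℝ => κ / 2 * Real.log T) atTop atTop := Real.tendsto_log_atTop.const_mul_atTop (by positivity)
  have e3 := hl.eventually_ge_atTop (a * Real.log (2 * Real.pi))
  have e4 := hl.eventually_ge_atTop (2 * a * Real.log P)
  have e5 := Real.tendsto_log_atTop.eventually_ge_atTop 2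
  have key : ∀ K ε : ℝ, 0 < K → 0 < ε → ∀ᶠ T : ℝ in atTop, K * Real.log T ≤ ε * T := by
    intro K ε hK hε
    have h := (Real.isLittleO_log_id_atTop).bound (show (0 : ℝ) < ε / K by positivity)
    filter_upwards [h, eventually_ge_atTop 1] with T hT hT1
    rw [Real.norm_of_nonneg (Real.log_nonneg hT1), id, Real.norm_of_nonneg (by linarith)] at hT
    calc K * Real.log T ≤ K * (ε / K * T) := mul_le_mul_of_nonneg_left hT hK.le
      _ = ε * T := by field_simp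
  have e6 := key κ 1 hκ one_pos
  have e7 := key (40 * a + 20 * (κ ^ 2 / a)) (20 * (κ / a)) (by positivity) (by positivity)
  filter_upwards [e1, e2, e3, e4, e5, e6, e7] with T h1 h2 h3 h4 h5 h6 h7
  exact ⟨h1, h2, h3, h4, h5, by linarith, h7⟩

theorem t_N : S_N := by
  intro hG hR hB hGB a κ ha hκ hκa
  have hμ0 : 0 < κ / (4 * a) := by positivity
  have hμ1 : κ / (4 * a) ≤ 1 / 4 := by
    rw [div_le_iff₀ (by positivity)]
    linarith
  obtain ⟨P, T1, hP, hT1, hgood⟩ := hG a (κ / (4 * a)) κ (κ ^ 2 / (4 * a ^ 2)) ha hμ0 (by linarith) hκ (by positivity)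
  obtain ⟨C, V1, hC, hV1, hrep⟩ := hR a ha
  obtain ⟨V2, hV2, hbox⟩ := hB a ha
  obtain ⟨T2, hT2, hgbox⟩ := hGB a κ ha hκ
  set μ : ℝ := κ / (4 * a) with hμ
  have haμ : 2 * a * μ = κ / 2 := by
    rw [hμ]
    field_simp
    ring
  obtain ⟨T₀, hT₀⟩ := eventually_atTop.1 (large a κ C μ P (max (max T1 V1) (max V2 T2)) ha hκ hμ0)
  refine ⟨max T₀ 2, le_max_right _ _, fun T hT S hS => ?_⟩
  obtain ⟨c0, c1, c2, c3, c4, c5, c6⟩ := hT₀ T ((le_max_left _ _).trans hT)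
  have hT2' : 2 ≤ T := (le_max_right _ _).trans hT
  have hTT1 : T1 ≤ T := ((le_max_left _ _).trans (le_max_left _ _)).trans c0
  have hTV1 : V1 ≤ T := ((le_max_right _ _).trans (le_max_left _ _)).trans c0
  have hTV2 : V2 ≤ T := ((le_max_left _ _).trans (le_max_right _ _)).trans c0
  have hTT2 : T2 ≤ T := ((le_max_right _ _).trans (le_max_right _ _)).trans c0
  have hT0 : 0 < T := by linarith
  set L : ℝ := Real.log T with hL
  set h : ℝ := κ * L with hh
  have hh0 : 0 < h := by positivity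
  set lam : ℝ := (1 / 2 - μ) * L with hlam
  have hvol := hgood T hTT1 lam (by rw [hlam]; nlinarith) (le_of_eq hlam)
  set B : Set ℝ := {v : ℝ | T ≤ v ∧ v ≤ 2 * T ∧ ∀ b : ℕ, 1 ≤ b → b ≤ P → ∀ u : ℝ, 0 ≤ u → u ≤ κ * Real.log T →
    ‖DD a (lam - Real.log b) (v + u)‖ < T ^ (μ - 1)} with hBdef
  set J : ℕ := ⌊T / h⌋₊ with hJ
  have hJ1 : (J : ℝ) * h ≤ T := by
    have := Nat.floor_le (show 0 ≤ T / h by positivity)
    rwa [le_div_iff₀ hh0] at this
  -- good boxes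
  have hgoodbox : ∀ j : ℕ, j < J → (∃ v ∈ Ico (T + (j : ℝ) * h) (T + (j + 1) * h), v ∉ B) → ∀ Q : Finset ℂ,
      (∀ w ∈ Q, EE a w = 0 ∧ |w.re| ≤ h ∧ T + j * h ≤ w.im ∧ w.im ≤ T + (j + 1) * h) →
      ∑ w ∈ Q, (analyticOrderNatAt (EE a) w : ℝ) ≤ 20 * (κ ^ 2 / a) * L ^ 2 := by
    rintro j hj ⟨v, ⟨hv1, hv2⟩, hvB⟩ Q hQ
    have hjJ : (j : ℝ) + 1 ≤ J := by exact_mod_cast hj
    have hvT : T ≤ v := by
      have : 0 ≤ (j : ℝ) * h := by positivity
      linarith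
    have hv2T : v ≤ 2 * T := by nlinarith
    have hex : ∃ b : ℕ, 1 ≤ b ∧ b ≤ P ∧ ∃ u : ℝ, 0 ≤ u ∧ u ≤ κ * Real.log T ∧ T ^ (μ - 1) ≤ ‖DD a (lam - Real.log b) (v + u)‖ := by
      by_contra hcon
      push Not at hcon
      exact hvB ⟨hvT, hv2T, fun b b1 b2 u u1 u2 => hcon b b1 b2 u u1 u2⟩
    obtain ⟨b, hb1, hb2, u, hu1, hu2, hDD⟩ := hex
    have hu2' : u ≤ h := hu2
    have hvu : T ≤ v + u := by linarith
    have hvu4 : v + u ≤ 4 * T := by linarith
    have hvu0 : 0 < v + u := by linarith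
    set η : ℝ := 2 * a * (Real.log ((v + u) / (2 * Real.pi)) / 2 - (lam - Real.log b)) with hη
    have hlb : 0 ≤ Real.log (b : ℝ) := Real.log_nonneg (by exact_mod_cast hb1)
    have hlb2 : Real.log (b : ℝ) ≤ Real.log P := Real.log_le_log (by exact_mod_cast hb1) (by exact_mod_cast hb2)
    have hlogd : Real.log ((v + u) / (2 * Real.pi)) = Real.log (v + u) - Real.log (2 * Real.pi) :=
      Real.log_div (by linarith) (by positivity)
    have hη2 : η = a * (Real.log (v + u) - L) - a * Real.log (2 * Real.pi) + κ / 2 * L + 2 * a * Real.log b := by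
      rw [hη, hlam, hlogd, ← haμ]
      ring
    have hl1 : L ≤ Real.log (v + u) := Real.log_le_log hT0 hvu
    have hl2 : Real.log (v + u) ≤ L + Real.log (2 * Real.pi) := by
      rw [hL, ← Real.log_mul (by linarith) (by positivity)]
      refine Real.log_le_log hvu0 ?_
      have := Real.pi_gt_three
      nlinarith
    have hη0 : 0 ≤ η := by
      rw [hη2]
      have : 0 ≤ a * (Real.log (v + u) - L) := mul_nonneg ha.le (by linarith)
      have : 0 ≤ 2 * a * Real.log b := by positivity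
      linarith
    have hη1 : η ≤ κ * Real.log T := by
      rw [hη2]
      have : a * (Real.log (v + u) - L) ≤ a * Real.log (2 * Real.pi) := mul_le_mul_of_nonneg_left (by linarith) ha.le
      have : 2 * a * Real.log b ≤ 2 * a * Real.log P := mul_le_mul_of_nonneg_left hlb2 (by positivity)
      have : κ * Real.log T = κ / 2 * L + κ / 2 * L := by rw [hL]; ring
      linarith
    have hrepr := hrep (v + u) (hTV1.trans hvu) η
    have earg : Real.log ((v + u) / (2 * Real.pi)) / 2 - η / (2 * a) = lam - Real.log b := by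
      rw [hη]
      field_simp
      ring
    rw [earg] at hrepr
    have hlow := lower (Real.one_le_exp (by positivity)) hC hT0 hvu hrepr hDD c1
    refine hgbox T (v + u) η hTT2 hvu hvu4 hη0 hη1 hlow Q (fun w hw => ?_)
    obtain ⟨a1, a2, a3, a4⟩ := hQ w hw
    refine ⟨a1, a2, ?_⟩
    rw [abs_le]
    constructor
    · have : (j : ℝ) * h + h = (j + 1) * h := by ring
      linarith
    · have : (j : ℝ) * h + h = (j + 1) * h := by ring
      linarith
  -- any box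
  have hanybox : ∀ j : ℕ, j ≤ J → ∀ Q : Finset ℂ,
      (∀ w ∈ Q, EE a w = 0 ∧ |w.re| ≤ h ∧ T + j * h ≤ w.im ∧ w.im ≤ T + (j + 1) * h) →
      ∑ w ∈ Q, (analyticOrderNatAt (EE a) w : ℝ) ≤ 40 * a * L ^ 2 := by
    intro j hj Q hQ
    have hjJ : (j : ℝ) ≤ J := by exact_mod_cast hj
    have hv1 : T ≤ T + j * h := by
      have : 0 ≤ (j : ℝ) * h := by positivity
      linarith
    have hv2 : T + j * h ≤ 2 * T := by nlinarith
    have hl1 : L ≤ Real.log (T + j * h) := Real.log_le_log hT0 hv1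
    have hl2 : Real.log (T + j * h) ≤ L + 0.7 := by
      have h2 : Real.log (T + j * h) ≤ Real.log (2 * T) := Real.log_le_log (by linarith) hv2
      rw [Real.log_mul (by norm_num) (by linarith)] at h2
      have := Real.log_two_lt_d9
      linarith
    have h1 := hbox (T + j * h) (hTV2.trans hv1) Q (fun w hw => by
      obtain ⟨a1, a2, a3, a4⟩ := hQ w hw
      have hle : h ≤ a * Real.log (T + j * h) := mul_le_mul hκa hl1 (by linarith) ha.le
      refine ⟨a1, a2.trans hle, ?_⟩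
      rw [abs_le]
      have : (j : ℝ) * h + h = (j + 1) * h := by ring
      constructor <;> linarith)
    refine h1.trans ?_
    have h4 : Real.log (T + j * h) ≤ 1.4 * L := by linarith
    have h5 : (Real.log (T + j * h)) ^ 2 ≤ (1.4 * L) ^ 2 := pow_le_pow_left₀ (by linarith) h4 2
    have h3 : (Real.log (T + j * h)) ^ 2 ≤ 2 * L ^ 2 := by
      have : (1.4 * L) ^ 2 = 1.96 * L ^ 2 := by ring
      have : 0 ≤ L ^ 2 := sq_nonneg L
      linarith
    calc 20 * a * (Real.log (T + j * h)) ^ 2 ≤ 20 * a * (2 * L ^ 2) := mul_le_mul_of_nonneg_left h3 (by positivity)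
      _ = _ := by ring
  -- the boxes
  let idx : ℂ → ℕ := fun w => ⌊(w.im - T) / h⌋₊
  have hidx : ∀ w ∈ S, idx w ∈ Finset.range (J + 1) := by
    intro w hw
    obtain ⟨a1, a2, a3, a4⟩ := hS w hw
    rw [Finset.mem_range, Nat.lt_succ_iff]
    exact Nat.floor_le_floor (div_le_div_of_nonneg_right (by linarith) hh0.le)
  have hidx2 : ∀ w ∈ S, T + (idx w : ℝ) * h ≤ w.im ∧ w.im ≤ T + ((idx w : ℝ) + 1) * h := by
    intro w hw
    obtain ⟨a1, a2, a3, a4⟩ := hS w hw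
    have b1 := Nat.floor_le (show 0 ≤ (w.im - T) / h from div_nonneg (by linarith) hh0.le)
    have b2 := (Nat.lt_floor_add_one ((w.im - T) / h)).le
    rw [le_div_iff₀ hh0] at b1
    rw [div_le_iff₀ hh0] at b2
    constructor
    · linarith
    · linarith
  have hQ : ∀ j : ℕ, ∀ w ∈ S.filter (fun w => idx w = j), EE a w = 0 ∧ |w.re| ≤ h ∧ T + j * h ≤ w.im ∧ w.im ≤ T + (j + 1) * h := by
    intro j w hw
    obtain ⟨w1, w2⟩ := Finset.mem_filter.1 hw
    obtain ⟨a1, a2, a3, a4⟩ := hS w w1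
    obtain ⟨b1, b2⟩ := hidx2 w w1
    rw [w2] at b1 b2
    exact ⟨a1, a2, b1, b2⟩
  rw [← Finset.sum_fiberwise_of_maps_to hidx, Finset.sum_range_succ]
  classical
  set bad : Finset ℕ := (Finset.range J).filter (fun j : ℕ => Ico (T + (j : ℝ) * h) (T + (j + 1) * h) ⊆ B) with hbad
  have hcard : (bad.card : ℝ) * h ≤ κ ^ 2 / (4 * a ^ 2) * T :=
    count B T h _ hh0 (by positivity) hvol bad (fun j hj => (Finset.mem_filter.1 hj).2)
  have hG0 : 0 ≤ 20 * (κ ^ 2 / a) * L ^ 2 := by positivity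
  have hA0 : 0 ≤ 40 * a * L ^ 2 := by positivity
  have hterm : ∀ j ∈ Finset.range J, ∑ w ∈ S.filter (fun w => idx w = j), (analyticOrderNatAt (EE a) w : ℝ) ≤
      20 * (κ ^ 2 / a) * L ^ 2 + (if j ∈ bad then 40 * a * L ^ 2 else 0) := by
    intro j hj
    by_cases hb : j ∈ bad
    · rw [if_pos hb]
      have := hanybox j (Finset.mem_range.1 hj).le _ (hQ j)
      linarith
    · rw [if_neg hb, add_zero]
      refine hgoodbox j (Finset.mem_range.1 hj) ?_ _ (hQ j)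
      have : ¬ Ico (T + (j : ℝ) * h) (T + (j + 1) * h) ⊆ B := fun hc => hb (Finset.mem_filter.2 ⟨hj, hc⟩)
      exact Set.not_subset.1 this
  have hsum := Finset.sum_le_sum hterm
  rw [Finset.sum_add_distrib, Finset.sum_const, Finset.card_range, nsmul_eq_mul, ← Finset.sum_filter,
    Finset.sum_const, nsmul_eq_mul] at hsum
  have hfb : ((Finset.range J).filter fun j => j ∈ bad) = bad := by
    ext j
    simp only [Finset.mem_filter, hbad]
    tauto
  rw [hfb] at hsum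
  have hlast := hanybox J le_rfl _ (hQ J)
  have hJG : (J : ℝ) * (20 * (κ ^ 2 / a) * L ^ 2) ≤ 20 * (κ / a) * T * L := by
    calc (J : ℝ) * (20 * (κ ^ 2 / a) * L ^ 2) = (J * h) * (20 * (κ / a) * L) := by rw [hh]; ring
      _ ≤ T * (20 * (κ / a) * L) := mul_le_mul_of_nonneg_right hJ1 (by positivity)
      _ = _ := by ring
  have hbA : (bad.card : ℝ) * (40 * a * L ^ 2) ≤ 10 * (κ / a) * T * L := by
    calc (bad.card : ℝ) * (40 * a * L ^ 2) = (bad.card * h) * (40 * a * L / κ) := by rw [hh]; field_simp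
      _ ≤ (κ ^ 2 / (4 * a ^ 2) * T) * (40 * a * L / κ) := mul_le_mul_of_nonneg_right hcard (by positivity)
      _ = _ := by field_simp; ring
  have hfinal : 40 * a * L ^ 2 ≤ 20 * (κ / a) * T * L := by
    have h1 : (40 * a + 20 * (κ ^ 2 / a)) * L * L ≤ 20 * (κ / a) * T * L := mul_le_mul_of_nonneg_right c6 (by linarith)
    have h2 : 0 ≤ 20 * (κ ^ 2 / a) * L * L := by positivity
    calc 40 * a * L ^ 2 = (40 * a + 20 * (κ ^ 2 / a)) * L * L - 20 * (κ ^ 2 / a) * L * L := by ring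
      _ ≤ _ := by linarith
  calc _ ≤ ((J : ℝ) * (20 * (κ ^ 2 / a) * L ^ 2) + (bad.card : ℝ) * (40 * a * L ^ 2)) + 40 * a * L ^ 2 := add_le_add hsum hlast
    _ ≤ (20 * (κ / a) * T * L + 10 * (κ / a) * T * L) + 20 * (κ / a) * T * L := add_le_add (add_le_add hJG hbA) hfinal
    _ = 50 * (κ / a) * T * Real.log T := by rw [hL]; ring

end Pool.Agent.J4H6.NG.N
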