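import Pool.Agent.J4H1.NG.Rep
import Pool.Agent.J4H21.NG.Sh
import Pool.Agent.J4H19.NG.Repr
import Pool.Agent.J4H57.NG.Upb
import Pool.Agent.J4H2.NG.Jen
import Pool.Agent.J4H49.NG.Gam
import Pool.Agent.J4H52.NG.Box
import Pool.Agent.J4H31.NG.Gro
import Pool.Agent.J4H79.NG.Upt
import Pool.Agent.J4H6.NG.E
import Pool.Agent.J4H6.NG.N

/-!
# Project NG: the assembly, from (LOC), (GOOD) and (T) (helper6)
-/

set_option autoImplicit false

namespace Pool.Agent.J4H6.NG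

open Pool.Agent.J4H4.NG

theorem final (hLOC : S_LOC) (hGOOD : S_GOOD) (hT : S_T) : S_FINAL := by
  have REP : S_REP := J4H1.NG.t_REP
  have REPR : S_REPR := J4H19.NG.t_REPR J4H21.NG.t_SH hLOC
  have UPB : S_UPB := J4H57.NG.t_UPB REPR
  have FAR : S_FAR := J4H57.NG.t_FAR REPR
  have JEN : S_JEN := J4H2.NG.t_JEN
  have GAM : S_GAM := J4H49.NG.t_GAM hLOC
  have BOX : S_BOX := J4H52.NG.t_BOX REP JEN GAM UPB FAR
  have GBOX : S_GBOX := J4H52.NG.t_GBOX REP JEN GAM UPB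
  have GRO : S_GRO := J4H31.NG.t_GRO
  have UPT : S_UPT := J4H79.NG.t_UPT JEN GRO
  exact t_E REP (N.t_N hGOOD REPR BOX GBOX) UPT (hT GRO UPT)

end Pool.Agent.J4H6.NG
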