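import Pool.Agent.J4H6.NG.Asm
import Pool.Agent.J4H3.NG.Loc
import Pool.Agent.J4H34.NG.T
import Pool.Agent.J4H75.NG.Ns
import Pool.Agent.J4H95.NG.Rc
import Pool.Agent.J4H95.NG.Ch
import Pool.Agent.J4H42.NG.Ms
import Pool.Agent.J4H42.NG.Mob

/-!
# Project NG: the assembly, from (G) alone (helper6)
-/

set_option autoImplicit false

namespace Pool.Agent.J4H6.NG

open Pool.Agent.J4H4.NG

theorem final_of_G (hG : S_G) : S_FINAL :=
  final J4H3.NG.t_LOC (hG (J4H75.NG.t_NS J4H95.NG.t_RC) J4H42.NG.t_MS J4H42.NG.t_MOB J4H95.NG.t_CH) J4H34.NG.t_T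

end Pool.Agent.J4H6.NG
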